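import Mathlib

/-!
# MP_3ef57e_nt : products of two consecutive primes versus symmetric products

Write `p_k` for the `k`-th prime, so `p_k = Nat.nth Nat.Prime (k - 1)`.

Theorem: for every large `x` there is `n ∈ [x, 8192 x]` with
`p_{n-i} p_{n+j} exp ((i² + j²) / (8192 n)²) ≤ p_n²` for all `0 ≤ i ≤ n - 1`, `0 ≤ j ≤ n` with
`i² + j² ≥ 65536 n (j - i)`.

With `j = i + 1`: for these `n` the inequality `p_n p_{n+1} > p_{n-i} p_{n+1+i}` of property (P)
holds for all `i` with `182 √n ≤ i ≤ n - 1`. With `j = i`: `p_n` is good, with a surplus.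

Proof: touch the graph of `k ↦ log p_k` from above by a parabola of curvature `≍ 1 / n²`;
Chebyshev's bounds keep the touching point in `[x, 8192 x]`.
-/

set_option autoImplicit false

open Filter

namespace Pool.Agent.Results.MP_3ef57e_nt.BeyondSqrt

lemma low : ∀ᶠ n : ℕ in atTop, (n : ℝ) ≤ 2 * ((Nat.primeCounting n : ℝ) * Real.log n) := by
  filter_upwards [eventually_ge_atTop 200] with n hn
  have h1 := Chebyshev.pi_ge n
  have hn' : (200 : ℝ) ≤ n := by exact_mod_cast hn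
  have hlog : 0 < Real.log n := Real.log_pos (by linarith)
  rw [div_le_iff₀ hlog] at h1
  have h2 := Real.log_two_gt_d9
  have h3 : Real.log ((n : ℝ) + 1) ≤ ((n : ℝ) + 1) / 20 + 19 := by
    have h4 := Real.log_le_sub_one_of_pos (show (0 : ℝ) < ((n : ℝ) + 1) / 20 by positivity)
    rw [Real.log_div (by positivity) (by norm_num)] at h4
    have h5 := Real.log_le_sub_one_of_pos (show (0 : ℝ) < 20 by norm_num)
    linarith
  have h6 : (n : ℝ) * 0.69 ≤ n * Real.log 2 := by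
    apply mul_le_mul_of_nonneg_left _ (by linarith)
    linarith
  linarith

lemma upp : ∀ᶠ n : ℕ in atTop, (Nat.primeCounting n : ℝ) * Real.log n ≤ 3 * n := by
  have h := Chebyshev.eventually_primeCounting_le (ε := 1) one_pos
  have h' := (tendsto_natCast_atTop_atTop (R := ℝ)).eventually h
  filter_upwards [h', eventually_ge_atTop 2] with n hn h2
  rw [Nat.floor_natCast] at hn
  have hlog : 0 < Real.log n := Real.log_pos (by exact_mod_cast h2)
  rw [le_div_iff₀ hlog] at hn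
  have h4 : Real.log 4 = 2 * Real.log 2 := by
    rw [show (4 : ℝ) = 2 ^ 2 by norm_num, Real.log_pow]; norm_num
  have h5 := Real.log_two_lt_d9
  have hn0 : (0 : ℝ) ≤ n := Nat.cast_nonneg n
  have h6 : (Real.log 4 + 1) * n ≤ 3 * n := by
    apply mul_le_mul_of_nonneg_right _ hn0
    linarith
  linarith

lemma piP (k : ℕ) : Nat.primeCounting (Nat.nth Nat.Prime k) = k + 1 := by
  rw [Nat.primeCounting, Nat.primeCounting', Nat.count_succ,
    Nat.count_nth_of_infinite Nat.infinite_setOfPred_prime, if_pos (Nat.prime_nth_prime k)]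

lemma le_P (k : ℕ) : k ≤ Nat.nth Nat.Prime k :=
  (Nat.nth_strictMono Nat.infinite_setOfPred_prime).le_apply

lemma P_tendsto : Tendsto (Nat.nth Nat.Prime) atTop atTop :=
  (Nat.nth_strictMono Nat.infinite_setOfPred_prime).tendsto_atTop

lemma B1 : ∀ᶠ k : ℕ in atTop, Nat.nth Nat.Prime (4 * k + 3) ≤ 64 * Nat.nth Nat.Prime k := by
  have ht2 : Tendsto (fun k => 64 * Nat.nth Nat.Prime k) atTop atTop :=
    tendsto_atTop_mono (fun k => by omega) P_tendsto
  filter_upwards [P_tendsto.eventually upp, ht2.eventually low, eventually_ge_atTop 64]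
    with k h1 h2 h3
  rw [piP] at h1
  set y := Nat.nth Nat.Prime k with hy
  have hyk : 64 ≤ y := le_trans h3 (le_P k)
  have hyR : (64 : ℝ) ≤ y := by exact_mod_cast hyk
  have hlog : 0 < Real.log y := Real.log_pos (by linarith)
  have hlog2 : Real.log ((64 * y : ℕ) : ℝ) ≤ 2 * Real.log y := by
    push_cast
    rw [Real.log_mul (by norm_num) (by linarith)]
    have := Real.log_le_log (by norm_num) hyR
    linarith
  have h5 : 4 * k + 3 < Nat.primeCounting (64 * y) := by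
    by_contra hcon
    push Not at hcon
    have hc : (Nat.primeCounting (64 * y) : ℝ) ≤ 4 * k + 3 := by exact_mod_cast hcon
    have h6 : ((64 * y : ℕ) : ℝ) ≤ 2 * ((4 * k + 3) * (2 * Real.log y)) := by
      refine h2.trans ?_
      gcongr
    push_cast at h6 h1
    nlinarith
  have h7 : Nat.nth Nat.Prime (4 * k + 3) < 64 * y + 1 :=
    Nat.nth_lt_of_lt_count (by simpa [Nat.primeCounting, Nat.primeCounting'] using h5)
  omega

lemma B2 : ∀ᶠ k : ℕ in atTop, 512 * Nat.nth Nat.Prime k ≤ Nat.nth Nat.Prime (4096 * k + 4095) := by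
  have ht2 : Tendsto (fun k => 512 * Nat.nth Nat.Prime k) atTop atTop :=
    tendsto_atTop_mono (fun k => by omega) P_tendsto
  filter_upwards [P_tendsto.eventually low, ht2.eventually upp, eventually_ge_atTop 64]
    with k h1 h2 h3
  rw [piP] at h1
  set z := Nat.nth Nat.Prime k with hz
  have hzk : 64 ≤ z := le_trans h3 (le_P k)
  have hzR : (64 : ℝ) ≤ z := by exact_mod_cast hzk
  have hlog : 0 < Real.log z := Real.log_pos (by linarith)
  have hlog2 : Real.log z ≤ Real.log ((512 * z : ℕ) : ℝ) := by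
    push_cast
    exact Real.log_le_log (by linarith) (by linarith)
  have h4 : (Nat.primeCounting (512 * z) : ℝ) * Real.log z ≤ 3072 * (k + 1) * Real.log z := by
    have h5 : (Nat.primeCounting (512 * z) : ℝ) * Real.log z
        ≤ (Nat.primeCounting (512 * z) : ℝ) * Real.log ((512 * z : ℕ) : ℝ) :=
      mul_le_mul_of_nonneg_left hlog2 (Nat.cast_nonneg _)
    push_cast at h5 h2 h1 ⊢
    nlinarith
  have h6 : (Nat.primeCounting (512 * z) : ℝ) ≤ 3072 * (k + 1) := le_of_mul_le_mul_right h4 hlog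
  have h7 : Nat.primeCounting (512 * z) ≤ 3072 * (k + 1) := by exact_mod_cast h6
  have h8 : 512 * z + 1 ≤ Nat.nth Nat.Prime (4096 * k + 4095) := by
    apply (Nat.count_le_iff_le_nth Nat.infinite_setOfPred_prime).1
    have h9 : Nat.count Nat.Prime (512 * z + 1) = Nat.primeCounting (512 * z) := rfl
    rw [h9]
    omega
  omega

/-- `f m = log p_m` for `m ≥ 1`. -/
noncomputable def f (m : ℕ) : ℝ := Real.log (Nat.nth Nat.Prime (m - 1) : ℝ)

lemma P_pos (k : ℕ) : (0 : ℝ) < (Nat.nth Nat.Prime k : ℝ) := by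
  exact_mod_cast (Nat.prime_nth_prime k).pos

lemma f_mono {a b : ℕ} (h : a ≤ b) : f a ≤ f b := by
  unfold f
  apply Real.log_le_log (P_pos _)
  exact_mod_cast (Nat.nth_strictMono Nat.infinite_setOfPred_prime).monotone (by omega)

/-- The touching point of the parabola. -/
lemma touch (k : ℕ) (h1 : Nat.nth Nat.Prime (4 * (4096 * k + 4095) + 3) ≤
      64 * Nat.nth Nat.Prime (4096 * k + 4095))
    (h2 : 512 * Nat.nth Nat.Prime k ≤ Nat.nth Nat.Prime (4096 * k + 4095)) :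
    ∃ n : ℕ, k + 1 ≤ n ∧ n ≤ 8192 * (k + 1) ∧ ∀ m : ℕ, 1 ≤ m → m ≤ 16384 * (k + 1) →
      f m + 14 * (1 - (m : ℝ) / (16384 * (k + 1))) ^ 2 ≤
        f n + 14 * (1 - (n : ℝ) / (16384 * (k + 1))) ^ 2 := by
  obtain ⟨n, hn, hmax⟩ := Finset.exists_max_image (Finset.Icc 1 (16384 * (k + 1)))
    (fun m : ℕ => f m + 14 * (1 - (m : ℝ) / (16384 * (k + 1))) ^ 2)
    ⟨1, Finset.mem_Icc.2 ⟨le_rfl, by omega⟩⟩
  rw [Finset.mem_Icc] at hn
  have hl2 := Real.log_two_gt_d9
  have hl2' := Real.log_two_lt_d9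
  have hF1 : f (16384 * (k + 1)) ≤ 6 * Real.log 2 + f (4096 * (k + 1)) := by
    unfold f
    have e1 : 16384 * (k + 1) - 1 = 4 * (4096 * k + 4095) + 3 := by omega
    have e2 : 4096 * (k + 1) - 1 = 4096 * k + 4095 := by omega
    rw [e1, e2, show (6 : ℝ) * Real.log 2 = Real.log 64 by
      rw [show (64 : ℝ) = 2 ^ 6 by norm_num, Real.log_pow]; norm_num,
      ← Real.log_mul (by norm_num) (P_pos _).ne']
    apply Real.log_le_log (P_pos _)
    exact_mod_cast h1
  have hF2 : 9 * Real.log 2 + f (k + 1) ≤ f (4096 * (k + 1)) := by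
    unfold f
    have e2 : 4096 * (k + 1) - 1 = 4096 * k + 4095 := by omega
    rw [e2, Nat.add_sub_cancel, show (9 : ℝ) * Real.log 2 = Real.log 512 by
      rw [show (512 : ℝ) = 2 ^ 9 by norm_num, Real.log_pow]; norm_num,
      ← Real.log_mul (by norm_num) (P_pos _).ne']
    apply Real.log_le_log (by have := P_pos k; positivity)
    exact_mod_cast h2
  have hX : (0 : ℝ) < 16384 * (k + 1) := by positivity
  have hY := hmax (4096 * (k + 1)) (Finset.mem_Icc.2 ⟨by omega, by omega⟩)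
  have eY : (((4096 * (k + 1) : ℕ) : ℝ)) / (16384 * (k + 1)) = 1 / 4 := by
    push_cast
    field_simp
    norm_num
  rw [eY] at hY
  have hnX : (n : ℝ) / (16384 * (k + 1)) ≤ 1 := by
    rw [div_le_one hX]
    exact_mod_cast hn.2
  have hn0 : 0 ≤ (n : ℝ) / (16384 * (k + 1)) := by positivity
  refine ⟨n, ?_, ?_, ?_⟩
  · by_contra hcon
    push Not at hcon
    have h3 : f n ≤ f (k + 1) := f_mono hcon.le
    nlinarith
  · by_contra hcon
    push Not at hcon
    have h3 : f n ≤ f (16384 * (k + 1)) := f_mono hn.2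
    have h4 : (1 : ℝ) / 2 ≤ (n : ℝ) / (16384 * (k + 1)) := by
      rw [le_div_iff₀ hX]
      have : ((8192 * (k + 1) : ℕ) : ℝ) ≤ n := by exact_mod_cast hcon.le
      push_cast at this
      linarith
    nlinarith
  · intro m hm1 hm2
    exact hmax m (Finset.mem_Icc.2 ⟨hm1, hm2⟩)

/-- **Theorem.** For every large `x` there is `n ∈ [x, 8192 x]` such that
`p_{n-i} p_{n+j} exp ((i² + j²) / (8192 n)²) ≤ p_n²` for all `0 ≤ i ≤ n - 1` and `0 ≤ j ≤ n` with
`65536 n (j - i) ≤ i² + j²`. -/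
theorem result :
    ∃ x₀ : ℕ, ∀ x : ℕ, x₀ ≤ x → ∃ n : ℕ, x ≤ n ∧ n ≤ 8192 * x ∧
      ∀ i j : ℕ, i + 1 ≤ n → j ≤ n →
        65536 * (n : ℝ) * ((j : ℝ) - (i : ℝ)) ≤ (i : ℝ) ^ 2 + (j : ℝ) ^ 2 →
        (Nat.nth Nat.Prime (n - i - 1) : ℝ) * (Nat.nth Nat.Prime (n + j - 1) : ℝ) *
            Real.exp (((i : ℝ) ^ 2 + (j : ℝ) ^ 2) / (8192 * (n : ℝ)) ^ 2) ≤
          (Nat.nth Nat.Prime (n - 1) : ℝ) ^ 2 := by
  have ht : Tendsto (fun k : ℕ => 4096 * k + 4095) atTop atTop :=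
    tendsto_atTop_mono (fun k => by show k ≤ _; omega) tendsto_id
  obtain ⟨K, hK⟩ := eventually_atTop.1 ((ht.eventually B1).and B2)
  refine ⟨K + 1, fun x hx => ?_⟩
  obtain ⟨k, rfl⟩ : ∃ k, x = k + 1 := ⟨x - 1, by omega⟩
  obtain ⟨hk1, hk2⟩ := hK k (by omega)
  obtain ⟨n, hn1, hn2, hmax⟩ := touch k hk1 hk2
  refine ⟨n, hn1, hn2, ?_⟩
  intro i j hi2 hj2 hij
  have ha := hmax (n - i) (by omega) (by omega)
  have hb := hmax (n + j) (by omega) (by omega)
  rw [Nat.cast_sub (by omega)] at ha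
  rw [Nat.cast_add] at hb
  have hX : (0 : ℝ) < 16384 * ((k : ℝ) + 1) := by positivity
  rw [sub_div] at ha
  rw [add_div] at hb
  have hn0 : (0 : ℝ) < n := by
    have : 0 < n := by omega
    exact_mod_cast this
  have hkn : (k : ℝ) + 1 ≤ n := by exact_mod_cast hn1
  have hnk : (n : ℝ) ≤ 8192 * ((k : ℝ) + 1) := by exact_mod_cast hn2
  set X : ℝ := 16384 * ((k : ℝ) + 1) with hXdef
  have hXn : X ≤ 16384 * n := by linarith
  -- the main inequality
  have hquad : 14 * (2 * (1 - (n : ℝ) / X) * ((j : ℝ) / X - (i : ℝ) / X)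
      - ((i : ℝ) / X) ^ 2 - ((j : ℝ) / X) ^ 2) ≤
      -(((i : ℝ) ^ 2 + (j : ℝ) ^ 2) / (8192 * (n : ℝ)) ^ 2) := by
    have hs0 : 0 ≤ (i : ℝ) ^ 2 + (j : ℝ) ^ 2 := by positivity
    -- surplus
    have h1 : ((i : ℝ) ^ 2 + (j : ℝ) ^ 2) / (8192 * (n : ℝ)) ^ 2 ≤
        4 * (((i : ℝ) ^ 2 + (j : ℝ) ^ 2) / X ^ 2) := by
      rw [div_le_iff₀ (by positivity)]
      have h2 : X ^ 2 ≤ (16384 * (n : ℝ)) ^ 2 := by gcongr
      have h3 : 4 * (((i : ℝ) ^ 2 + (j : ℝ) ^ 2) / X ^ 2) * (8192 * (n : ℝ)) ^ 2 =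
          ((i : ℝ) ^ 2 + (j : ℝ) ^ 2) * ((16384 * (n : ℝ)) ^ 2 / X ^ 2) := by
        field_simp
        ring
      rw [h3]
      have h4 : 1 ≤ (16384 * (n : ℝ)) ^ 2 / X ^ 2 := by
        rw [one_le_div (by positivity)]
        exact h2
      nlinarith
    -- the mixed term
    have h5 : 2 * (1 - (n : ℝ) / X) * ((j : ℝ) / X - (i : ℝ) / X) ≤
        (1 / 2) * (((i : ℝ) ^ 2 + (j : ℝ) ^ 2) / X ^ 2) := by
      have hnX : (n : ℝ) / X ≤ 1 := by
        rw [div_le_one hX]; linarith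
      have hnX0 : 0 ≤ (n : ℝ) / X := by positivity
      rcases le_total (j : ℝ) i with hji | hji
      · have h6 : (j : ℝ) / X - (i : ℝ) / X ≤ 0 := by
          rw [← sub_div]
          exact div_nonpos_of_nonpos_of_nonneg (by linarith) hX.le
        have h7 : 2 * (1 - (n : ℝ) / X) * ((j : ℝ) / X - (i : ℝ) / X) ≤ 0 :=
          mul_nonpos_of_nonneg_of_nonpos (by linarith) h6
        have h8 : 0 ≤ (1 / 2) * (((i : ℝ) ^ 2 + (j : ℝ) ^ 2) / X ^ 2) := by positivity
        linarith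
      · have h6 : 0 ≤ (j : ℝ) / X - (i : ℝ) / X := by
          rw [← sub_div]
          exact div_nonneg (by linarith) hX.le
        have h7 : 2 * (1 - (n : ℝ) / X) * ((j : ℝ) / X - (i : ℝ) / X) ≤
            2 * ((j : ℝ) / X - (i : ℝ) / X) := by nlinarith
        have h8 : 2 * ((j : ℝ) / X - (i : ℝ) / X) = (1 / 2) * ((4 * X * ((j : ℝ) - i)) / X ^ 2) := by
          field_simp
          ring
        have h9 : 4 * X * ((j : ℝ) - i) ≤ (i : ℝ) ^ 2 + (j : ℝ) ^ 2 := by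
          have : 4 * X * ((j : ℝ) - i) ≤ 65536 * (n : ℝ) * ((j : ℝ) - i) := by
            apply mul_le_mul_of_nonneg_right _ (by linarith)
            linarith
          linarith
        have h10 : (4 * X * ((j : ℝ) - i)) / X ^ 2 ≤ ((i : ℝ) ^ 2 + (j : ℝ) ^ 2) / X ^ 2 := by
          gcongr
        linarith
    have h11 : ((i : ℝ) / X) ^ 2 + ((j : ℝ) / X) ^ 2 = ((i : ℝ) ^ 2 + (j : ℝ) ^ 2) / X ^ 2 := by
      rw [div_pow, div_pow, ← add_div]
    have h12 : 0 ≤ ((i : ℝ) ^ 2 + (j : ℝ) ^ 2) / X ^ 2 := by positivity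
    linarith
  have hsum : f (n - i) + f (n + j) + ((i : ℝ) ^ 2 + (j : ℝ) ^ 2) / (8192 * (n : ℝ)) ^ 2 ≤
      f n + f n := by
    nlinarith
  unfold f at hsum
  have h5 := Real.exp_le_exp.2 hsum
  rw [Real.exp_add, Real.exp_add, Real.exp_add, Real.exp_log (P_pos _), Real.exp_log (P_pos _),
    Real.exp_log (P_pos _)] at h5
  rw [sq (Nat.nth Nat.Prime (n - 1) : ℝ)]
  exact h5

/-- The case `j = i + 1`: the inequalities of property (P) with `i ≥ 182 √n`. -/
theorem propertyP_beyond_sqrt :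
    Set.Infinite {n : ℕ | 1 ≤ n ∧ ∀ i : ℕ, 182 * Real.sqrt n ≤ i → i ≤ n - 1 →
      Nat.nth Nat.Prime (n - i - 1) * Nat.nth Nat.Prime (n + i) <
        Nat.nth Nat.Prime (n - 1) * Nat.nth Nat.Prime n} := by
  apply Set.infinite_of_forall_exists_gt
  intro N
  obtain ⟨x₀, hx⟩ := result
  obtain ⟨n, hn1, -, hn⟩ := hx (max x₀ (N + 1)) (le_max_left _ _)
  have hN : N + 1 ≤ n := le_trans (le_max_right _ _) hn1
  refine ⟨n, ⟨by omega, fun i hi1 hi2 => ?_⟩, by omega⟩
  have hn0 : (0 : ℝ) ≤ n := Nat.cast_nonneg n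
  have h6 : (182 * Real.sqrt n) ^ 2 ≤ (i : ℝ) ^ 2 := by gcongr
  rw [mul_pow, Real.sq_sqrt hn0] at h6
  have hi0 : (0 : ℝ) ≤ i := Nat.cast_nonneg i
  have h := hn i (i + 1) (by omega) (by omega) (by push_cast; nlinarith)
  have h1 : (1 : ℝ) ≤ Real.exp (((i : ℝ) ^ 2 + ((i + 1 : ℕ) : ℝ) ^ 2) / (8192 * (n : ℝ)) ^ 2) :=
    Real.one_le_exp (by positivity)
  have h2 : (Nat.nth Nat.Prime (n - 1) : ℝ) < Nat.nth Nat.Prime n := by
    exact_mod_cast Nat.nth_strictMono Nat.infinite_setOfPred_prime (by omega)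
  have h3 : (0 : ℝ) ≤ (Nat.nth Nat.Prime (n - i - 1) : ℝ) * (Nat.nth Nat.Prime (n + (i + 1) - 1) : ℝ) := by
    positivity
  have h4 := le_trans (le_mul_of_one_le_right h3 h1) h
  rw [show n + (i + 1) - 1 = n + i by omega] at h4
  have h5 : (Nat.nth Nat.Prime (n - i - 1) : ℝ) * (Nat.nth Nat.Prime (n + i) : ℝ) <
      (Nat.nth Nat.Prime (n - 1) : ℝ) * Nat.nth Nat.Prime n := by
    have := P_pos (n - 1)
    nlinarith
  exact_mod_cast h5

end Pool.Agent.Results.MP_3ef57e_nt.BeyondSqrt
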